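import Pool.Agent.Q26.BH.PoissonU
import Pool.Agent.Q26.BH.PrimeLaw

set_option autoImplicit false

/-!
# Goldbach's problem: the system `m`, `n - m`
-/

namespace Pool.Agent.Q26.GB

open Polynomial Finset Filter
open Pool.Agent.W123.RP Pool.Agent.H373R2.T7 Pool.Agent.W123.RU Pool.Agent.W123.RU.Poly
open Pool.Agent.TH464.PW Pool.Agent.TH464.PO Pool.Agent.Y879.GL Pool.Agent.Y879.PR

/-- the system -/
noncomputable def gs (n : ℕ) : Fin 2 → ℤ[X] := ![X, C (n : ℤ) - X]

lemma gs_Q (n p m : ℕ) : Q (gs n) p m ↔ (p : ℤ) ∣ (m : ℤ) ∨ (p : ℤ) ∣ (n : ℤ) - m := by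
  unfold Q gs
  rw [Fin.exists_fin_two]
  simp

lemma deg1 (n : ℕ) : (C (n : ℤ) - X : ℤ[X]).natDegree = 1 := by
  have : (C (n : ℤ) - X : ℤ[X]) = -(X - C (n : ℤ)) := by ring
  rw [this, natDegree_neg, natDegree_X_sub_C]

lemma irr1 (n : ℕ) : Irreducible (C (n : ℤ) - X : ℤ[X]) := by
  have h : (C (n : ℤ) - X : ℤ[X]) = -(X - C (n : ℤ)) := by ring
  rw [h]
  exact (Associated.refl _).neg_right.irreducible (irreducible_X_sub_C (n : ℤ))

lemma no_assoc (P P' : ℤ[X]) (h1 : P.coeff 0 ≠ P'.coeff 0) (h2 : P.coeff 0 ≠ -P'.coeff 0) : ¬ Associated P P' := by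
  intro h
  obtain ⟨u, hu⟩ := h.symm
  obtain ⟨c, hc, hcu⟩ := Polynomial.isUnit_iff.1 u.isUnit
  rcases Int.isUnit_iff.1 hc with rfl | rfl
  · apply h1
    rw [← hu, ← hcu]
    simp
  · apply h2
    rw [← hu, ← hcu]
    simp

lemma gs_US (n : ℕ) (hn : 2 ≤ n) (he : Even n) : US 2 1 ((n : ℝ) ^ (1 : ℝ)) ((n : ℝ) ^ (1 / 2 : ℝ)) (gs n) where
  irr := by
    intro i
    fin_cases i
    · exact irreducible_X
    · exact irr1 n
  deg := by
    intro i
    fin_cases i
    · simp [gs]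
    · simp only [gs]
      change (C (n : ℤ) - X : ℤ[X]).natDegree ≠ 0
      rw [deg1]
      norm_num
  degD := by
    intro i
    fin_cases i
    · simp [gs]
    · change (C (n : ℤ) - X : ℤ[X]).natDegree ≤ 1
      rw [deg1]
  hgt := by
    intro i k
    have hn2 : (2 : ℝ) ≤ n := by exact_mod_cast hn
    rw [Real.rpow_one]
    fin_cases i
    · change |(((X : ℤ[X]).coeff k : ℤ) : ℝ)| ≤ n
      rw [coeff_X]
      split_ifs <;> simp <;> linarith
    · change |(((C (n : ℤ) - X : ℤ[X]).coeff k : ℤ) : ℝ)| ≤ n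
      rw [coeff_sub, coeff_C, coeff_X]
      rcases k with _ | _ | k
      · simp
      · simp
        linarith
      · simp
  adm := by
    intro p hp
    obtain ⟨e, he⟩ := he
    rcases hp.eq_two_or_odd' with rfl | hodd
    · refine ⟨1, fun i => ?_⟩
      fin_cases i
      · change ¬ ((2 : ℕ) : ℤ) ∣ (X : ℤ[X]).eval ((1 : ℕ) : ℤ)
        rw [eval_X]
        norm_num
      · change ¬ ((2 : ℕ) : ℤ) ∣ (C (n : ℤ) - X : ℤ[X]).eval ((1 : ℕ) : ℤ)
        rw [eval_sub, eval_C, eval_X]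
        omega
    · have hp3 : 3 ≤ p := by
        rcases hodd with ⟨j, hj⟩
        have := hp.two_le
        omega
      by_cases h1 : (p : ℤ) ∣ (n : ℤ) - 1
      · refine ⟨2, fun i => ?_⟩
        fin_cases i
        · change ¬ (p : ℤ) ∣ (X : ℤ[X]).eval ((2 : ℕ) : ℤ)
          rw [eval_X]
          intro h
          have := Int.le_of_dvd (by norm_num) h
          have h3 : (3 : ℤ) ≤ p := by exact_mod_cast hp3
          push_cast at this
          omega
        · change ¬ (p : ℤ) ∣ (C (n : ℤ) - X : ℤ[X]).eval ((2 : ℕ) : ℤ)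
          rw [eval_sub, eval_C, eval_X]
          intro h
          have h2 := dvd_sub h1 h
          have h3 : (n : ℤ) - 1 - ((n : ℤ) - ((2 : ℕ) : ℤ)) = 1 := by push_cast; ring
          rw [h3] at h2
          have := Int.le_of_dvd (by norm_num) h2
          have h3 : (3 : ℤ) ≤ p := by exact_mod_cast hp3
          omega
      · refine ⟨1, fun i => ?_⟩
        fin_cases i
        · change ¬ (p : ℤ) ∣ (X : ℤ[X]).eval ((1 : ℕ) : ℤ)
          rw [eval_X]
          intro h
          have := Int.le_of_dvd (by norm_num) h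
          have h3 : (3 : ℤ) ≤ p := by exact_mod_cast hp3
          push_cast at this
          omega
        · change ¬ (p : ℤ) ∣ (C (n : ℤ) - X : ℤ[X]).eval ((1 : ℕ) : ℤ)
          rw [eval_sub, eval_C, eval_X]
          push_cast
          exact h1
  tr := by
    intro i j t ht htn
    have hn2 : (2 : ℝ) ≤ n := by exact_mod_cast hn
    have h1 : (n : ℝ) ^ (1 / 2 : ℝ) < n := by
      calc (n : ℝ) ^ (1 / 2 : ℝ) < (n : ℝ) ^ (1 : ℝ) :=
            Real.rpow_lt_rpow_of_exponent_lt (by linarith) (by norm_num)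
        _ = n := Real.rpow_one _
    have htn' : t < n := by exact_mod_cast lt_of_le_of_lt htn h1
    have ht1 : (1 : ℤ) ≤ t := by exact_mod_cast ht
    have htn2 : (t : ℤ) < n := by exact_mod_cast htn'
    have c0 : (X : ℤ[X]).coeff 0 = 0 := coeff_X_zero
    have c1 : (C (n : ℤ) - X : ℤ[X]).coeff 0 = n := by rw [coeff_sub, coeff_C_zero, coeff_X_zero, sub_zero]
    have d0 : ((X : ℤ[X]).comp (X + C (t : ℤ))).coeff 0 = t := by
      rw [X_comp, coeff_add, coeff_X_zero, coeff_C_zero, zero_add]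
    have d1 : ((C (n : ℤ) - X : ℤ[X]).comp (X + C (t : ℤ))).coeff 0 = n - t := by
      rw [sub_comp, C_comp, X_comp, coeff_sub, coeff_C_zero, coeff_add, coeff_X_zero, coeff_C_zero, zero_add]
    fin_cases i <;> fin_cases j
    · change ¬ Associated (X : ℤ[X]) ((X : ℤ[X]).comp (X + C (t : ℤ)))
      apply no_assoc <;> rw [c0, d0] <;> omega
    · change ¬ Associated (X : ℤ[X]) ((C (n : ℤ) - X : ℤ[X]).comp (X + C (t : ℤ)))
      apply no_assoc <;> rw [c0, d1] <;> omega
    · change ¬ Associated (C (n : ℤ) - X : ℤ[X]) ((X : ℤ[X]).comp (X + C (t : ℤ)))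
      apply no_assoc <;> rw [c1, d0] <;> omega
    · change ¬ Associated (C (n : ℤ) - X : ℤ[X]) ((C (n : ℤ) - X : ℤ[X]).comp (X + C (t : ℤ)))
      apply no_assoc <;> rw [c1, d1] <;> omega

/-- the numbers of the classes -/
lemma gs_nu (n p : ℕ) (hp : p.Prime) : nuB (Q (gs n)) p = if p ∣ n then 1 else 2 := by
  classical
  unfold nuB
  have h0 : (range p).filter (fun r => Q (gs n) p r) = {0, n % p} := by
    ext m
    rw [mem_filter, mem_range, gs_Q, mem_insert, mem_singleton]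
    constructor
    · rintro ⟨h1, h2 | h2⟩
      · left
        exact Nat.eq_zero_of_dvd_of_lt (by exact_mod_cast h2) h1
      · right
        have h3 : (m : ℤ) ≡ n [ZMOD p] := (Int.modEq_iff_dvd).2 h2
        have h4 : m ≡ n [MOD p] := by exact_mod_cast (Int.natCast_modEq_iff.1 h3)
        rw [← h4, Nat.mod_eq_of_lt h1]
    · rintro (rfl | rfl)
      · exact ⟨hp.pos, Or.inl (by simp)⟩
      · refine ⟨Nat.mod_lt _ hp.pos, Or.inr ?_⟩
        have h3 : (n % p) ≡ n [MOD p] := Nat.mod_modEq _ _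
        exact (Int.modEq_iff_dvd).1 (by exact_mod_cast h3)
  rw [h0]
  split_ifs with h
  · rw [Nat.mod_eq_zero_of_dvd h]
    simp
  · rw [card_pair]
    intro h1
    exact h (Nat.dvd_of_mod_eq_zero h1.symm)

end Pool.Agent.Q26.GB
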